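import Pool.Agent.P8H41.PK.Stm

set_option autoImplicit false

/-! # Package ROT of project PK (helper75): average over the rotations -/

namespace Pool.Agent.P8H75.PK

open MeasureTheory ProbabilityTheory Pool.Agent.P8H41.PK Set
open scoped InnerProductSpace

/-- the orthogonal group as a group of operators -/
abbrev GG (n : ℕ) : Type := ↥(unitary (E n →L[ℝ] E n))

noncomputable instance mG (n : ℕ) : MeasurableSpace (GG n) := borel _

instance bG (n : ℕ) : BorelSpace (GG n) := ⟨rfl⟩

instance sG (n : ℕ) : ContinuousStar (E n →L[ℝ] E n) :=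
  ⟨(ContinuousLinearMap.adjoint (𝕜 := ℝ) (E := E n) (F := E n)).continuous⟩

instance cG (n : ℕ) : CompactSpace (GG n) := by
  refine isCompact_iff_compactSpace.1 ?_
  have : ProperSpace (E n →L[ℝ] E n) := FiniteDimensional.proper ℝ _
  refine IsCompact.of_isClosed_subset (isCompact_closedBall (0 : E n →L[ℝ] E n) 1)
    isClosed_unitary ?_
  intro u hu
  rw [mem_closedBall_zero_iff]
  refine ContinuousLinearMap.opNorm_le_bound _ zero_le_one fun x => ?_
  rw [ContinuousLinearMap.norm_map_of_mem_unitary hu, one_mul]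

/-- its Haar probability measure -/
noncomputable def mu (n : ℕ) : Measure (GG n) := Measure.haarMeasure ⊤

instance (n : ℕ) : (mu n).IsHaarMeasure := by unfold mu; infer_instance

instance (n : ℕ) : IsProbabilityMeasure (mu n) := ⟨by
  unfold mu
  exact Measure.haarMeasure_self⟩

theorem right_inv {n : ℕ} (S : Set (GG n)) (hS : MeasurableSet S) (h : GG n) :
    mu n ((fun g => g * h) ⁻¹' S) = mu n S := by
  have h1 : (Measure.map (fun g => g * h) (mu n)) = mu n := by
    have : IsProbabilityMeasure (Measure.map (fun g => g * h) (mu n)) :=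
      Measure.isProbabilityMeasure_map (by fun_prop)
    exact Measure.isHaarMeasure_eq_of_isProbabilityMeasure _ _
  conv_rhs => rw [← h1]
  rw [Measure.map_apply (by fun_prop) hS]

theorem act_cont {n : ℕ} : Continuous fun q : GG n × E n => (q.1 : E n →L[ℝ] E n) q.2 :=
  (continuous_subtype_val.comp continuous_fst).clm_apply continuous_snd

/-- the set of rotations which carry `x` to `O` -/
def hit {n : ℕ} (O : Set (E n)) (x : E n) : Set (GG n) := {g | (g : E n →L[ℝ] E n) x ∈ O}

theorem hit_open {n : ℕ} {O : Set (E n)} (hO : IsOpen O) (x : E n) : IsOpen (hit O x) := by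
  have : Continuous fun g : GG n => (g : E n →L[ℝ] E n) x :=
    act_cont.comp (Continuous.prodMk continuous_id continuous_const)
  exact hO.preimage this

theorem hit_const {n : ℕ} {O : Set (E n)} (hO : IsOpen O) (hc : ∀ t : ℝ, 0 < t → ∀ z ∈ O, t • z ∈ O)
    {x z : E n} (hx : ‖x‖ = 1) (hz : z ≠ 0) : mu n (hit O z) = mu n (hit O x) := by
  have hz0 : 0 < ‖z‖ := norm_pos_iff.2 hz
  set w : E n := ‖z‖⁻¹ • z with hw
  have hw1 : ‖w‖ = 1 := by
    rw [hw, norm_smul, norm_inv, norm_norm, inv_mul_cancel₀ hz0.ne']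
  have hzw : z = ‖z‖ • w := by
    rw [hw, smul_smul, mul_inv_cancel₀ hz0.ne', one_smul]
  set V : E n ≃ₗᵢ[ℝ] E n := (ℝ ∙ (x - w))ᗮ.reflection with hV
  have hVx : V x = w := Submodule.reflection_sub (by rw [hx, hw1])
  set h : GG n := Unitary.linearIsometryEquiv.symm V with hh
  have hhx : (h : E n →L[ℝ] E n) x = w := by
    rw [hh, Unitary.coe_symm_linearIsometryEquiv_apply]
    exact hVx
  rw [← right_inv (hit O x) (hit_open hO x).measurableSet h]
  congr 1
  ext g
  rw [mem_preimage]
  change (g : E n →L[ℝ] E n) z ∈ O ↔ ((g * h : GG n) : E n →L[ℝ] E n) x ∈ O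
  have e1 : ((g * h : GG n) : E n →L[ℝ] E n) x = (g : E n →L[ℝ] E n) w := by
    rw [← hhx]
    rfl
  rw [e1]
  constructor
  · intro h1
    have := hc ‖z‖⁻¹ (inv_pos.2 hz0) _ h1
    rwa [← map_smul] at this
  · intro h1
    have := hc ‖z‖ hz0 _ h1
    rwa [← map_smul, ← hzw] at this

/-- the Gaussian measure of `O` is at most the probability that a random rotation carries the unit
vector `x` to `O` -/
theorem gauss_le {n : ℕ} {O : Set (E n)} (hO : IsOpen O) (hc : ∀ t : ℝ, 0 < t → ∀ z ∈ O, t • z ∈ O)
    (h0 : (0 : E n) ∉ O) {x : E n} (hx : ‖x‖ = 1) : stdGaussian (E n) O ≤ mu n (hit O x) := by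
  set S : Set (GG n × E n) := {q | (q.1 : E n →L[ℝ] E n) q.2 ∈ O} with hS
  have hSm : MeasurableSet S := (hO.preimage act_cont).measurableSet
  have h1 : ((mu n).prod (stdGaussian (E n))) S = stdGaussian (E n) O := by
    rw [Measure.prod_apply hSm]
    have : ∀ g : GG n, stdGaussian (E n) (Prod.mk g ⁻¹' S) = stdGaussian (E n) O := by
      intro g
      have h2 := stdGaussian_map (Unitary.linearIsometryEquiv g)
      conv_rhs => rw [← h2]
      rw [Measure.map_apply (Unitary.linearIsometryEquiv g).continuous.measurable hO.measurableSet]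
      rfl
    simp only [this]
    rw [lintegral_const, measure_univ, mul_one]
  rw [← h1, Measure.prod_apply_symm hSm]
  calc ∫⁻ z, mu n ((fun g => (g, z)) ⁻¹' S) ∂(stdGaussian (E n))
      ≤ ∫⁻ z, mu n (hit O x) ∂(stdGaussian (E n)) := by
        refine lintegral_mono fun z => ?_
        change mu n (hit O z) ≤ _
        rcases eq_or_ne z 0 with hz | hz
        · have : hit O z = ∅ := by
            rw [hz]
            ext g
            simp only [hit, mem_ofPred_eq, map_zero, mem_empty_iff_false, iff_false]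
            exact h0
          rw [this, measure_empty]
          exact zero_le
        · exact (hit_const hO hc hx hz).le
    _ = mu n (hit O x) := by rw [lintegral_const, measure_univ, mul_one]

/-- ROT -/
theorem rot : S_ROT := by
  classical
  intro n C O hC hO hc
  rcases C.eq_empty_or_nonempty with hCe | hCne
  · refine ⟨LinearIsometryEquiv.refl ℝ (E n), ∅, by simp, by simp, ?_⟩
    rw [hCe]; simp
  by_cases h0 : (0 : E n) ∈ O
  · -- `O` is everything
    refine ⟨LinearIsometryEquiv.refl ℝ (E n), C, subset_rfl, fun x hx => ?_, ?_⟩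
    · have h1 : Filter.Tendsto (fun t : ℝ => t • x) (nhdsWithin 0 (Ioi 0)) (nhds ((0 : ℝ) • x)) :=
        ((continuous_id.smul continuous_const).tendsto 0).mono_left nhdsWithin_le_nhds
      rw [zero_smul] at h1
      have h2 : ∀ᶠ t : ℝ in nhdsWithin 0 (Ioi 0), t • x ∈ O := h1 (hO.mem_nhds h0)
      obtain ⟨t, ht, ht0⟩ := (h2.and self_mem_nhdsWithin).exists
      have ht0' : 0 < t := ht0
      have := hc t⁻¹ (inv_pos.2 ht0') _ ht
      rw [smul_smul, inv_mul_cancel₀ ht0'.ne', one_smul] at this
      exact this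
    · have h1 : (stdGaussian (E n)).real O ≤ 1 := measureReal_le_one
      have h2 : (0 : ℝ) ≤ C.card := Nat.cast_nonneg _
      nlinarith
  obtain ⟨x₀, hx₀⟩ := hCne
  set F : GG n → ℝ := fun g => ∑ x ∈ C, (hit O x).indicator (fun _ => (1 : ℝ)) g with hF
  have hint : ∀ x ∈ C, Integrable ((hit O x).indicator (fun _ => (1 : ℝ))) (mu n) := by
    intro x _
    exact (integrable_const (1 : ℝ)).indicator (hit_open hO x).measurableSet
  have hFint : Integrable F (mu n) := integrable_finsetSum _ hint
  obtain ⟨g, hg⟩ := exists_integral_le hFint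
  have hval : ∫ g, F g ∂(mu n) = ∑ x ∈ C, (mu n).real (hit O x) := by
    rw [hF, integral_finsetSum _ hint]
    refine Finset.sum_congr rfl fun x _ => ?_
    rw [integral_indicator_const _ (hit_open hO x).measurableSet]
    simp
  refine ⟨Unitary.linearIsometryEquiv g, C.filter (fun x => g ∈ hit O x), Finset.filter_subset _ _,
    ?_, ?_⟩
  · intro x hx
    exact (Finset.mem_filter.1 hx).2
  · have h1 : F g = ((C.filter (fun x => g ∈ hit O x)).card : ℝ) := by
      rw [hF]
      simp only [Set.indicator_apply]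
      rw [Finset.sum_ite, Finset.sum_const_zero, add_zero, Finset.sum_const, nsmul_eq_mul, mul_one]
    rw [← h1]
    refine le_trans ?_ hg
    rw [hval, mul_comm, ← nsmul_eq_mul]
    refine Finset.card_nsmul_le_sum _ _ _ fun x hx => ?_
    exact ENNReal.toReal_mono (measure_ne_top _ _) (gauss_le hO hc h0 (hC x hx))

end Pool.Agent.P8H75.PK
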